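import Mathlib

/-!
# Conditions: countable sets of points and countable families of perfect sets in the Cantor space
-/

set_option linter.unusedSectionVars false
set_option linter.unusedVariables false

namespace Pool.Agent.Lib.MP_c54930_gt

open Set

/-- the Cantor space -/
abbrev Cs : Type := ℕ → Bool

/-- cylinders -/
def cyl (x : Cs) (n : ℕ) : Set Cs := {y | ∀ i < n, y i = x i}

theorem self_cyl (x : Cs) (n : ℕ) : x ∈ cyl x n := fun _ _ => rfl

theorem cyl_zero (x : Cs) : cyl x 0 = univ := by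
  ext y
  simp [cyl]

theorem cyl_anti {x : Cs} {m n : ℕ} (h : m ≤ n) : cyl x n ⊆ cyl x m :=
  fun y hy i hi => hy i (hi.trans_le h)

theorem cyl_eq {x y : Cs} {n : ℕ} (h : y ∈ cyl x n) : cyl y n = cyl x n := by
  ext z
  exact forall_congr' fun i => forall_congr' fun hi => by rw [h i hi]

theorem cyl_inter {x y : Cs} {m n : ℕ} (h : y ∈ cyl x m) : cyl x m ∩ cyl y n = cyl y (max m n) := by
  rw [← cyl_eq h]
  ext z
  constructor
  · rintro ⟨h1, h2⟩ i hi
    rcases lt_max_iff.1 hi with hi | hi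
    · exact h1 i hi
    · exact h2 i hi
  · intro hz
    exact ⟨cyl_anti (le_max_left _ _) hz, cyl_anti (le_max_right _ _) hz⟩

theorem isClopen_cyl (x : Cs) (n : ℕ) : IsClopen (cyl x n) := by
  have : cyl x n = ⋂ i ∈ Finset.range n, {y : Cs | y i = x i} := by
    ext y
    simp [cyl]
  rw [this]
  refine isClopen_biInter_finset fun i _ => ?_
  exact (isClopen_discrete {x i}).preimage (continuous_apply i)

theorem exists_cyl {U : Set Cs} (hU : IsOpen U) {x : Cs} (hx : x ∈ U) : ∃ n, cyl x n ⊆ U := by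
  obtain ⟨I, u, h1, h2⟩ := isOpen_pi_iff.1 hU x hx
  refine ⟨I.sup id + 1, fun y hy => h2 fun i hi => ?_⟩
  have : i < I.sup id + 1 := Nat.lt_succ_of_le (Finset.le_sup (f := id) hi)
  rw [hy i this]
  exact (h1 i hi).2

theorem exists_disj {x y : Cs} (h : x ≠ y) : ∃ n, ∀ m ≥ n, Disjoint (cyl x m) (cyl y m) := by
  obtain ⟨i, hi⟩ := Function.ne_iff.1 h
  refine ⟨i + 1, fun m hm => Set.disjoint_left.2 fun z h1 h2 => hi ?_⟩
  rw [← h1 i (by omega), ← h2 i (by omega)]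

/-- perfect sets -/
def Perf (k : Set Cs) : Prop := ∀ x ∈ k, ∀ n, ∃ y ∈ k, y ∈ cyl x n ∧ y ≠ x

theorem Perf.inter {k : Set Cs} (h : Perf k) (x : Cs) (n : ℕ) : Perf (k ∩ cyl x n) := by
  rintro y ⟨hy, hyx⟩ m
  obtain ⟨z, h1, h2, h3⟩ := h y hy (max n m)
  refine ⟨z, ⟨h1, ?_⟩, cyl_anti (le_max_right _ _) h2, h3⟩
  rw [← cyl_eq hyx]
  exact cyl_anti (le_max_left _ _) h2

theorem perf_univ : Perf univ := by
  intro x _ n
  refine ⟨Function.update x n (!x n), trivial, fun i hi => ?_, fun h => ?_⟩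
  · rw [Function.update_of_ne (by omega)]
  · have := congrFun h n
    simp at this

/-- the family of all cylinders -/
def Cyls : Set (Set Cs) := {k | ∃ x n, cyl x n = k}

theorem countable_Cyls : Cyls.Countable := by
  have : Cyls ⊆ range fun a : (Σ n : ℕ, Fin n → Bool) => {y : Cs | ∀ i : Fin a.1, y i = a.2 i} := by
    rintro _ ⟨x, n, rfl⟩
    refine ⟨⟨n, fun i => x i⟩, ?_⟩
    ext y
    simp only [mem_setOf_eq, cyl]
    exact ⟨fun h i hi => h ⟨i, hi⟩, fun h i => h i i.2⟩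
  exact (countable_range _).mono this

/-- conditions -/
structure Cond where
  /-- points -/
  X : Set Cs
  /-- basic sets -/
  K : Set (Set Cs)
  cX : X.Countable
  cK : K.Countable
  top : univ ∈ K
  ne : ∀ k ∈ K, k.Nonempty
  cyl' : ∀ k ∈ K, ∀ x ∈ k, ∀ n, k ∩ cyl x n ∈ K
  clsd : ∀ k ∈ K, IsClosed k
  perf : ∀ k ∈ K, Perf k
  base : ∀ k ∈ K, ∀ k' ∈ K, ∀ x ∈ X, x ∈ k → x ∈ k' → ∃ l ∈ K, x ∈ l ∧ l ⊆ k ∩ k'
  room : ∀ k ∈ K, ∃ t ∈ K, t ⊆ k ∧ Disjoint t X

namespace Cond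

theorem ext' {p q : Cond} (h1 : p.X = q.X) (h2 : p.K = q.K) : p = q := by
  cases p
  cases q
  simp only at h1 h2
  subst h1
  subst h2
  rfl

theorem cyl_mem (p : Cond) (x : Cs) (n : ℕ) : cyl x n ∈ p.K := by
  have := p.cyl' univ p.top x trivial n
  rwa [univ_inter] at this

/-- `T` is covered by finitely many sets without points -/
def Gd (p : Cond) (T : Set Cs) : Prop :=
  ∃ s : Set (Set Cs), s.Finite ∧ (∀ t ∈ s, t ∈ p.K ∧ Disjoint t p.X) ∧ T ⊆ ⋃₀ s

theorem Gd.disj {p : Cond} {T : Set Cs} (h : p.Gd T) : Disjoint T p.X := by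
  obtain ⟨s, _, h1, h2⟩ := h
  refine Set.disjoint_left.2 fun x hx hxX => ?_
  obtain ⟨t, ht, hxt⟩ := h2 hx
  exact Set.disjoint_left.1 (h1 t ht).2 hxt hxX

theorem Gd.mono {p : Cond} {T T' : Set Cs} (h : p.Gd T) (hT : T' ⊆ T) : p.Gd T' := by
  obtain ⟨s, h0, h1, h2⟩ := h
  exact ⟨s, h0, h1, hT.trans h2⟩

theorem Gd.of_mem {p : Cond} {T : Set Cs} (h : T ∈ p.K) (h' : Disjoint T p.X) : p.Gd T :=
  ⟨{T}, finite_singleton _, by rintro t rfl; exact ⟨h, h'⟩, by simp⟩

/-- the order -/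
structure Le (q p : Cond) : Prop where
  X : p.X ⊆ q.X
  K : p.K ⊆ q.K
  new : ∀ k ∈ q.K, k ∉ p.K → p.Gd k
  pnew : ∀ x ∈ q.X, x ∉ p.X → p.Gd {x}

instance : LE Cond := ⟨Le⟩

theorem Gd.trans {q p : Cond} (h : q ≤ p) {T : Set Cs} (hT : q.Gd T) : p.Gd T := by
  obtain ⟨s, hs, h1, h2⟩ := hT
  have key : ∀ t ∈ s, p.Gd t := by
    intro t ht
    obtain ⟨h3, h4⟩ := h1 t ht
    by_cases htp : t ∈ p.K
    · exact Gd.of_mem htp (h4.mono_right h.X)
    · exact h.new t h3 htp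
  choose! u hu0 hu1 hu2 using key
  refine ⟨⋃ t ∈ s, u t, hs.biUnion fun t ht => hu0 t ht, ?_, ?_⟩
  · intro t ht
    simp only [mem_iUnion] at ht
    obtain ⟨t', ht', h5⟩ := ht
    exact hu1 t' ht' t h5
  · intro x hx
    obtain ⟨t, ht, hxt⟩ := h2 hx
    obtain ⟨a, ha, hxa⟩ := hu2 t ht hxt
    exact ⟨a, by simp only [mem_iUnion]; exact ⟨t, ht, ha⟩, hxa⟩

instance : PartialOrder Cond where
  le_refl p := ⟨subset_rfl, subset_rfl, fun k h h' => absurd h h', fun k h h' => absurd h h'⟩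
  le_trans a b c hab hbc := by
    refine ⟨hbc.X.trans hab.X, hbc.K.trans hab.K, fun k h h' => ?_, fun x h h' => ?_⟩
    · by_cases hk : k ∈ b.K
      · exact hbc.new k hk h'
      · exact Gd.trans hbc (hab.new k h hk)
    · by_cases hk : x ∈ b.X
      · exact hbc.pnew x hk h'
      · exact Gd.trans hbc (hab.pnew x h hk)
  le_antisymm a b hab hba :=
    ext' (subset_antisymm hba.X hab.X) (subset_antisymm hba.K hab.K)

/-- the largest condition -/
def tp : Cond where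
  X := ∅
  K := Cyls
  cX := countable_empty
  cK := countable_Cyls
  top := ⟨fun _ => false, 0, cyl_zero _⟩
  ne := by
    rintro _ ⟨x, n, rfl⟩
    exact ⟨x, self_cyl x n⟩
  cyl' := by
    rintro _ ⟨x, n, rfl⟩ y hy m
    exact ⟨y, max n m, (cyl_inter hy).symm⟩
  clsd := by
    rintro _ ⟨x, n, rfl⟩
    exact (isClopen_cyl x n).1
  perf := by
    rintro _ ⟨x, n, rfl⟩
    rw [← univ_inter (cyl x n)]
    exact perf_univ.inter x n
  base := fun _ _ _ _ x hx => absurd hx (by simp)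
  room := fun k hk => ⟨k, hk, subset_rfl, by simp⟩

instance : OrderTop Cond where
  top := tp
  le_top p := by
    refine ⟨empty_subset _, ?_, fun k _ _ => ?_, fun k _ _ => ?_⟩
    · rintro _ ⟨x, n, rfl⟩
      exact p.cyl_mem x n
    · exact (Gd.of_mem tp.top (by simp [tp])).mono (subset_univ _)
    · exact (Gd.of_mem tp.top (by simp [tp])).mono (subset_univ _)

/-- two small disjoint sets without points -/
theorem split (p : Cond) {k : Set Cs} (hk : k ∈ p.K) (n : ℕ) : ∃ a ∈ p.K, ∃ b ∈ p.K, a ⊆ k ∧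
    b ⊆ k ∧ Disjoint a b ∧ Disjoint a p.X ∧ Disjoint b p.X ∧ (∀ x ∈ a, a ⊆ cyl x n) ∧
    ∀ x ∈ b, b ⊆ cyl x n := by
  obtain ⟨t, ht, htk, htX⟩ := p.room k hk
  obtain ⟨x, hx⟩ := p.ne t ht
  obtain ⟨y, hy, _, hyx⟩ := p.perf t ht x hx 0
  obtain ⟨m, hm⟩ := exists_disj hyx
  have hsm : ∀ z : Cs, ∀ w ∈ t ∩ cyl z (max m n), t ∩ cyl z (max m n) ⊆ cyl w n := by
    rintro z w ⟨_, hw⟩ v ⟨_, hv⟩
    rw [cyl_eq (cyl_anti (le_max_right _ _) hw)]
    exact cyl_anti (le_max_right _ _) hv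
  refine ⟨t ∩ cyl y (max m n), p.cyl' t ht y hy _, t ∩ cyl x (max m n), p.cyl' t ht x hx _,
    inter_subset_left.trans htk, inter_subset_left.trans htk, ?_, htX.mono_left inter_subset_left,
    htX.mono_left inter_subset_left, hsm y, hsm x⟩
  exact (hm _ (le_max_left _ _)).mono inter_subset_right inter_subset_right

/-- a new point -/
theorem add (p : Cond) {k : Set Cs} (hk : k ∈ p.K) :
    ∃ q ≤ p, ∃ x, x ∈ q.X ∧ x ∉ p.X ∧ x ∈ k := by
  obtain ⟨t, ht, htk, htX⟩ := p.room k hk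
  -- a point of `t` outside of all boundaries
  have hne : Nonempty t := (p.ne t ht).to_subtype
  have hcomp : CompactSpace t := isCompact_iff_compactSpace.1 (p.clsd t ht).isCompact
  have hd : Dense (⋂ l ∈ p.K, (frontier (Subtype.val ⁻¹' l : Set t))ᶜ) := by
    refine dense_biInter_of_isOpen (fun l _ => isClosed_frontier.isOpen_compl) p.cK fun l hl => ?_
    rw [← interior_eq_empty_iff_dense_compl]
    exact interior_frontier ((p.clsd l hl).preimage continuous_subtype_val)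
  obtain ⟨⟨x, hx⟩, hxf⟩ := hd.nonempty
  simp only [mem_iInter, mem_compl_iff] at hxf
  have key : ∀ l ∈ p.K, x ∈ l → ∃ n, t ∩ cyl x n ⊆ l := by
    intro l hl hxl
    have h1 : (⟨x, hx⟩ : t) ∈ interior (Subtype.val ⁻¹' l : Set t) := by
      by_contra hcon
      exact hxf l hl ⟨subset_closure hxl, hcon⟩
    obtain ⟨U, hU, h2, h3⟩ := mem_interior.1 h1
    obtain ⟨V, hV, rfl⟩ := isOpen_induced_iff.1 h2
    obtain ⟨n, hn⟩ := exists_cyl hV h3
    exact ⟨n, fun y hy => hU (show (⟨y, hy.1⟩ : t) ∈ Subtype.val ⁻¹' V from hn hy.2)⟩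
  let q : Cond :=
    { X := insert x p.X
      K := p.K
      cX := p.cX.insert x
      cK := p.cK
      top := p.top
      ne := p.ne
      cyl' := p.cyl'
      clsd := p.clsd
      perf := p.perf
      base := by
        rintro l hl l' hl' y hy hyl hyl'
        rcases hy with rfl | hy
        · obtain ⟨m, hm⟩ := key l hl hyl
          obtain ⟨n, hn⟩ := key l' hl' hyl'
          refine ⟨t ∩ cyl y (max m n), p.cyl' t ht y hx _, ⟨hx, self_cyl _ _⟩, fun z hz => ?_⟩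
          exact ⟨hm ⟨hz.1, cyl_anti (le_max_left _ _) hz.2⟩,
            hn ⟨hz.1, cyl_anti (le_max_right _ _) hz.2⟩⟩
        · exact p.base l hl l' hl' y hy hyl hyl'
      room := by
        intro l hl
        obtain ⟨a, ha, b, hb, h1, h2, h3, h4, h5, _⟩ := p.split hl 0
        by_cases hxa : x ∈ a
        · refine ⟨b, hb, h2, ?_⟩
          rw [Set.disjoint_insert_right]
          exact ⟨Set.disjoint_left.1 h3 hxa, h5⟩
        · refine ⟨a, ha, h1, ?_⟩
          rw [Set.disjoint_insert_right]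
          exact ⟨hxa, h4⟩ }
  refine ⟨q, ⟨subset_insert _ _, subset_rfl, fun k h h' => absurd h h', fun y h h' => ?_⟩, x,
    mem_insert _ _, Set.disjoint_left.1 htX hx, htk hx⟩
  rcases h with rfl | h
  · exact (Gd.of_mem ht htX).mono (singleton_subset_iff.2 hx)
  · exact absurd h h'

/-- lower bounds -/
theorem limit (p : ℕ → Cond) (hp : ∀ m n, m ≤ n → p n ≤ p m) (𝒯 : Set (Set Cs))
    (h𝒯 : 𝒯.Countable) (hT : ∀ T ∈ 𝒯, T.Nonempty ∧ IsClosed T ∧ Perf T ∧ ∀ n, (p n).Gd T)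
    (hK : ∀ n, ∀ k ∈ (p n).K, ∃ T ∈ 𝒯, T ⊆ k) :
    ∃ q : Cond, (∀ n, q ≤ p n) ∧ (∀ x ∈ q.X, ∃ n, x ∈ (p n).X) ∧
      ∀ k ∈ q.K, (∃ n, k ∈ (p n).K) ∨ ∃ T ∈ 𝒯, k ⊆ T := by
  let N : Set (Set Cs) := {k | ∃ T ∈ 𝒯, ∃ x ∈ T, ∃ n, k = T ∩ cyl x n}
  have hN : N.Countable := by
    have : N ⊆ ⋃ T ∈ 𝒯, (fun c => T ∩ c) '' Cyls := by
      rintro _ ⟨T, hT, x, hx, n, rfl⟩
      simp only [mem_iUnion]
      exact ⟨T, hT, _, ⟨x, n, rfl⟩, rfl⟩
    exact (h𝒯.biUnion fun T _ => countable_Cyls.image _).mono this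
  have hNg : ∀ k ∈ N, ∀ n, (p n).Gd k := by
    rintro _ ⟨T, h1, x, hx, m, rfl⟩ n
    exact ((hT T h1).2.2.2 n).mono inter_subset_left
  have hNd : ∀ k ∈ N, Disjoint k (⋃ n, (p n).X) := by
    intro k hk
    exact Set.disjoint_iUnion_right.2 fun n => (hNg k hk n).disj
  let q : Cond :=
    { X := ⋃ n, (p n).X
      K := (⋃ n, (p n).K) ∪ N
      cX := countable_iUnion fun n => (p n).cX
      cK := (countable_iUnion fun n => (p n).cK).union hN
      top := Or.inl (mem_iUnion.2 ⟨0, (p 0).top⟩)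
      ne := by
        rintro k (hk | ⟨T, h1, x, hx, m, rfl⟩)
        · obtain ⟨n, hn⟩ := mem_iUnion.1 hk
          exact (p n).ne k hn
        · exact ⟨x, hx, self_cyl _ _⟩
      cyl' := by
        rintro k (hk | ⟨T, h1, x, hx, m, rfl⟩) y hy n
        · obtain ⟨i, hi⟩ := mem_iUnion.1 hk
          exact Or.inl (mem_iUnion.2 ⟨i, (p i).cyl' k hi y hy n⟩)
        · refine Or.inr ⟨T, h1, y, hy.1, max m n, ?_⟩
          rw [inter_assoc, cyl_inter hy.2]
      clsd := by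
        rintro k (hk | ⟨T, h1, x, hx, m, rfl⟩)
        · obtain ⟨n, hn⟩ := mem_iUnion.1 hk
          exact (p n).clsd k hn
        · exact (hT T h1).2.1.inter (isClopen_cyl x m).1
      perf := by
        rintro k (hk | ⟨T, h1, x, hx, m, rfl⟩)
        · obtain ⟨n, hn⟩ := mem_iUnion.1 hk
          exact (p n).perf k hn
        · exact (hT T h1).2.2.1.inter x m
      base := by
        intro k hk k' hk' x hx hxk hxk'
        have h1 : ∀ l ∈ (⋃ n, (p n).K) ∪ N, x ∈ l → ∃ n, l ∈ (p n).K := by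
          rintro l (hl | hl) hxl
          · exact mem_iUnion.1 hl
          · exact absurd hx (Set.disjoint_left.1 (hNd l hl) hxl)
        obtain ⟨a, ha⟩ := h1 k hk hxk
        obtain ⟨b, hb⟩ := h1 k' hk' hxk'
        obtain ⟨c, hc⟩ := mem_iUnion.1 hx
        let n := max a (max b c)
        obtain ⟨l, hl, h2, h3⟩ := (p n).base k ((hp a n (le_max_left _ _)).K ha) k'
          ((hp b n ((le_max_left _ _).trans (le_max_right _ _))).K hb) x
          ((hp c n ((le_max_right _ _).trans (le_max_right _ _))).X hc) hxk hxk'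
        exact ⟨l, Or.inl (mem_iUnion.2 ⟨n, hl⟩), h2, h3⟩
      room := by
        rintro k (hk | hk)
        · obtain ⟨n, hn⟩ := mem_iUnion.1 hk
          obtain ⟨T, h1, h2⟩ := hK n k hn
          obtain ⟨x, hx⟩ := (hT T h1).1
          have hm : T ∩ cyl x 0 ∈ N := ⟨T, h1, x, hx, 0, rfl⟩
          exact ⟨T ∩ cyl x 0, Or.inr hm, inter_subset_left.trans h2, hNd _ hm⟩
        · exact ⟨k, Or.inr hk, subset_rfl, hNd _ hk⟩ }
  refine ⟨q, fun n => ⟨subset_iUnion (fun n => (p n).X) n,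
    (subset_iUnion (fun n => (p n).K) n).trans subset_union_left, ?_, ?_⟩,
    fun x hx => mem_iUnion.1 hx, ?_⟩
  · rintro k (hk | hk) hk'
    · obtain ⟨m, hm⟩ := mem_iUnion.1 hk
      rcases le_total m n with h | h
      · exact absurd ((hp m n h).K hm) hk'
      · exact (hp n m h).new k hm hk'
    · exact hNg k hk n
  · intro x hx hx'
    obtain ⟨m, hm⟩ := mem_iUnion.1 hx
    rcases le_total m n with h | h
    · exact absurd ((hp m n h).X hm) hx'
    · exact (hp n m h).pnew x hm hx'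
  · rintro k (hk | ⟨T, h1, x, hx, m, rfl⟩)
    · exact Or.inl (mem_iUnion.1 hk)
    · exact Or.inr ⟨T, h1, inter_subset_left⟩

end Cond

end Pool.Agent.Lib.MP_c54930_gt
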