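import Pool.Agent.Lib.MP_1ab623_gt.Statement

/-!
# Definitions for the statement: spaces of quasicontinuous functions in a model of `ZFC`

All notions are written out in terms of the membership relation `E` of the model.  Ordered pairs,
functions and natural numbers are those of `Pool.Agent.Lib.MP_1929a6_lc.Statement`; the axioms of
`ZFC`, topologies and the Hausdorff property are those of `Pool.Agent.Lib.MP_1ab623_gt.Statement`.
-/

universe u

namespace Pool.Agent.Lib.MP_c54930_gt

open Pool.Agent.ZF Pool.Agent.Lib.MP_1929a6_lc Pool.Agent.Lib.MP_1ab623_gt

variable {M : Type u} (E : M → M → Prop)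

/-- `x < y`: the pair `(x, y)` is an element of `L`. -/
def Less (L x y : M) : Prop := Maps E L x y

/-- No element of `S` is larger than `b`. -/
def UpperBound (L S b : M) : Prop := ∀ x, E x S → ¬ Less E L b x

/-- `R` with the order relation `L` (a set of pairs) is the real line: a nonempty strict linear
order without end points in which every nonempty bounded set has a supremum and in which some
countable set `{d 0, d 1, ...}` meets every interval.  (Such an order is unique up to
isomorphism.) -/
structure IsRealLine (w R L : M) : Prop where
  mem : ∀ x y, Less E L x y → E x R ∧ E y R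
  irrefl : ∀ x, ¬ Less E L x x
  trans : ∀ x y z, Less E L x y → Less E L y z → Less E L x z
  linear : ∀ x y, E x R → E y R → ¬ Less E L x y → ¬ Less E L y x → x = y
  nonempty : ∃ x, E x R
  noEnds : ∀ x, E x R → (∃ y, Less E L x y) ∧ ∃ y, Less E L y x
  complete : ∀ S, Sub E S R → (∃ x, E x S) → (∃ b, E b R ∧ UpperBound E L S b) →
    ∃ s, E s R ∧ UpperBound E L S s ∧ ∀ b, E b R → UpperBound E L S b → ¬ Less E L b s
  separable : ∃ d, IsFunction E d w R ∧ ∀ x y, Less E L x y →
    ∃ n z, Maps E d n z ∧ Less E L x z ∧ Less E L z y

/-- `a < y < b`. -/
def Between (L a y b : M) : Prop := Less E L a y ∧ Less E L y b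

/-- `f` is a quasicontinuous function from the space `X` with topology `τ` to the real line:
if `f x = y`, `x` is in the open set `U` and `a < y < b`, then there is a nonempty open set
`W ⊆ U` such that `f` maps `W` to the interval `(a, b)`. -/
structure Quasicontinuous (X τ R L f : M) : Prop where
  isFunction : IsFunction E f X R
  quasi : ∀ x y U a b, Maps E f x y → E U τ → E x U → Between E L a y b →
    ∃ W, E W τ ∧ (∃ t, E t W) ∧ Sub E W U ∧
      ∀ x' y', E x' W → Maps E f x' y' → Between E L a y' b

/-- `f` is in the basic open set given by the finite sequences `x`, `a`, `b`: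
`a i < f (x i) < b i` for all `i`. -/
def InBox (L x a b f : M) : Prop :=
  ∀ i u y c d, Maps E x i u → Maps E f u y → Maps E a i c → Maps E b i d → Between E L c y d

/-- `g` is in the closure of the set of functions `A` in the topology of pointwise convergence:
every basic open set (given by a natural number `n` and sequences `x`, `a`, `b` of length `n`;
the natural number `n` is the set of the smaller ones) that contains `g` contains an element
of `A`. -/
def InPointwiseClosure (w X R L g A : M) : Prop :=
  ∀ n x a b, E n w → IsFunction E x n X → IsFunction E a n R → IsFunction E b n R →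
    InBox E L x a b g → ∃ f, E f A ∧ InBox E L x a b f

/-- The sequence `s` of functions converges pointwise to `g`: if `g x = y` and `a < y < b`, then
there is a natural number `n` with `a < s k x < b` for all `k > n`. -/
def ConvergesPointwise (w L s g : M) : Prop :=
  ∀ x y a b, Maps E g x y → Between E L a y b → ∃ n, E n w ∧ ∀ k f y', E n k →
    Maps E s k f → Maps E f x y' → Between E L a y' b

/-- The space of quasicontinuous functions from `X` to the real line, with the topology of
pointwise convergence, is Frechet-Urysohn: if the quasicontinuous function `g` is in the closure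
of the set `A` of quasicontinuous functions, then some sequence of elements of `A` converges to
`g`. -/
def QpFrechetUrysohn (w X τ R L : M) : Prop :=
  ∀ A g, (∀ f, E f A → Quasicontinuous E X τ R L f) → Quasicontinuous E X τ R L g →
    InPointwiseClosure E w X R L g A → ∃ s, IsFunction E s w A ∧ ConvergesPointwise E w L s g

/-- `y` is in the closure of `V`: every open set that contains `y` meets `V`. -/
def InClosure (τ y V : M) : Prop := ∀ O, E O τ → E y O → ∃ t, E t V ∧ E t O

/-- The topology `τ` on `X` is regular: every open set `U` that contains the point `x` contains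
the closure of an open set `V` that contains `x`. -/
def Regular (X τ : M) : Prop :=
  ∀ x U, E U τ → E x U → ∃ V, E V τ ∧ E x V ∧ ∀ y, E y X → InClosure E τ y V → E y U

/-- The topology `τ` is semi-regular: if `x` is in the open set `U`, then there is an open set
`V` with `x ∈ V ⊆ U` that contains the interior of its closure (so `V` is regular open). -/
def SemiRegular (τ : M) : Prop :=
  ∀ x U, E U τ → E x U → ∃ V, E V τ ∧ E x V ∧ Sub E V U ∧
    ∀ y O, E O τ → E y O → (∀ z, E z O → InClosure E τ z V) → E y V

/-- The space `X` with topology `τ` is open Whyburn: for every open `A` and every point `x` of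
the closure of `A` that is not in `A` there is an open `B ⊆ A` such that `x` is the only point of
the closure of `B` that is not in `A`. -/
def OpenWhyburn (X τ : M) : Prop :=
  ∀ A x, E A τ → E x X → InClosure E τ x A → ¬ E x A →
    ∃ B, E B τ ∧ Sub E B A ∧ ∀ y, E y X → ((InClosure E τ y B ∧ ¬ E y A) ↔ y = x)

/-- The space `X` with topology `τ` is first countable: every point `x` has a sequence
`u 0, u 1, ...` of open neighbourhoods such that every open set that contains `x` contains some
`u n`. -/
def FirstCountable (w X τ : M) : Prop :=
  ∀ x, E x X → ∃ u, IsFunction E u w τ ∧ (∀ n U, Maps E u n U → E x U) ∧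
    ∀ U, E U τ → E x U → ∃ n V, Maps E u n V ∧ Sub E V U

/-- The topology `τ` is second countable: there is a sequence `u 0, u 1, ...` of open sets such
that every open set that contains a point `x` contains some `u n` that contains `x`. -/
def SecondCountable (w τ : M) : Prop :=
  ∃ u, IsFunction E u w τ ∧ ∀ x U, E U τ → E x U → ∃ n V, Maps E u n V ∧ E x V ∧ Sub E V U

/-- There is a topology `σ ⊆ τ` on `X` that is Hausdorff, regular and second countable.  (Such a
topology is metrizable by Urysohn's metrization theorem, so that `X` is submetrizable.) -/
def Submetrizable (w X τ : M) : Prop :=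
  ∃ σ, IsTopology E X σ ∧ Sub E σ τ ∧ Hausdorff E X σ ∧ Regular E X σ ∧ SecondCountable E w σ

/-- `X` is uncountable: it is nonempty, and no function from the set `w` of natural numbers to
`X` is surjective. -/
def Uncountable (w X : M) : Prop :=
  (∃ x, E x X) ∧ ¬ ∃ u, IsFunction E u w X ∧ ∀ x, E x X → ∃ n, Maps E u n x

end Pool.Agent.Lib.MP_c54930_gt
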