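import Pool.Agent.Lib.MP_c54930_gt.Sys
import Pool.Agent.Lib.MP_c54930_gt.Statement
import Pool.Agent.Lib.MP_1ab623_gt.Final

/-!
# The model of `ZFC`
-/

set_option linter.unusedSectionVars false
set_option linter.unusedVariables false
set_option linter.unusedSimpArgs false

universe u

namespace Pool.Agent.Lib.MP_c54930_gt

open Pool.Agent.ZF Pool.Agent.Lib.MP_1929a6_lc Pool.Agent.SymExt Pool.Agent.Lib.MP_1ab623_gt

section conv

variable {M : Type u} (E : M → M → Prop)

theorem less_prop (hE : IsZF E) (L x y : M) : (propLg E).app L x y ↔ Less E L x y :=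
  app_prop E hE L x y

theorem real_prop (hE : IsZF E) (w R L : M) (h : (propLg E).real w R L) :
    IsRealLine E w R L := by
  simp only [Lg.real, Lg.lin, Lg.cpl, Lg.ub, Lg.sep, prop_all, prop_imp, prop_and, prop_ex,
    prop_neg, prop_mem, prop_eq, sub_prop, isFun_prop E hE, app_prop E hE] at h
  obtain ⟨⟨h1, h2, h3, h4, h5, h6⟩, h7, h8⟩ := h
  exact ⟨h1, h2, fun x y z a b => h3 x y z ⟨a, b⟩, fun x y a b c d => h4 x y ⟨a, b, c, d⟩, h5,
    h6, fun S a b c => by
      obtain ⟨s, h9, h10, h11⟩ := h7 S ⟨a, b, c⟩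
      exact ⟨s, h9, h10, fun b h12 h13 => h11 b ⟨h12, h13⟩⟩, h8⟩

theorem btw_prop (hE : IsZF E) (L a y b : M) : (propLg E).btw L a y b ↔ Between E L a y b := by
  simp only [Lg.btw, prop_and, app_prop E hE]
  exact Iff.rfl

theorem qc_prop (hE : IsZF E) (X τ R L f : M) :
    (propLg E).qc X τ R L f ↔ Quasicontinuous E X τ R L f := by
  simp only [Lg.qc, prop_all, prop_imp, prop_and, prop_ex, prop_mem, sub_prop, isFun_prop E hE,
    app_prop E hE, btw_prop E hE, and_imp]
  exact ⟨fun h => ⟨h.1, h.2⟩, fun h => ⟨h.1, h.2⟩⟩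

theorem bas_prop (hE : IsZF E) (L x a b f : M) :
    (propLg E).bas L x a b f ↔ InBox E L x a b f := by
  simp only [Lg.bas, prop_all, prop_imp, prop_and, app_prop E hE, btw_prop E hE, and_imp]
  exact Iff.rfl

theorem clos_prop (hE : IsZF E) (w X R L g A : M) :
    (propLg E).clos w X R L g A ↔ InPointwiseClosure E w X R L g A := by
  simp only [Lg.clos, prop_all, prop_imp, prop_and, prop_ex, prop_mem, isFun_prop E hE,
    bas_prop E hE, and_imp]
  exact Iff.rfl

theorem pconv_prop (hE : IsZF E) (w L s g : M) :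
    (propLg E).pconv w L s g ↔ ConvergesPointwise E w L s g := by
  simp only [Lg.pconv, prop_all, prop_imp, prop_and, prop_ex, prop_mem, app_prop E hE,
    btw_prop E hE, and_imp]
  exact Iff.rfl

theorem qfu_prop (hE : IsZF E) (w X τ R L : M) :
    (propLg E).qfu w X τ R L ↔ QpFrechetUrysohn E w X τ R L := by
  simp only [Lg.qfu, prop_all, prop_imp, prop_and, prop_ex, prop_mem, isFun_prop E hE,
    qc_prop E hE, clos_prop E hE, pconv_prop E hE, and_imp]
  exact Iff.rfl

theorem adh_prop (τ y V : M) : (propLg E).adh τ y V ↔ InClosure E τ y V := by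
  simp only [Lg.adh, Lg.meet, prop_all, prop_imp, prop_and, prop_ex, prop_mem, and_imp]
  exact Iff.rfl

theorem reg_prop (X τ : M) : (propLg E).reg X τ ↔ Regular E X τ := by
  simp only [Lg.reg, prop_all, prop_imp, prop_and, prop_ex, prop_mem, adh_prop, and_imp]
  exact Iff.rfl

theorem sreg_prop (τ : M) : (propLg E).sreg τ ↔ SemiRegular E τ := by
  simp only [Lg.sreg, prop_all, prop_imp, prop_and, prop_ex, prop_mem, adh_prop, sub_prop,
    and_imp]
  exact Iff.rfl

theorem owhy_prop (X τ : M) : (propLg E).owhy X τ ↔ OpenWhyburn E X τ := by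
  simp only [Lg.owhy, prop_all, prop_imp, prop_and, prop_ex, prop_mem, prop_neg, prop_iff,
    prop_eq, adh_prop, sub_prop, and_imp]
  exact Iff.rfl

theorem fctb_prop (hE : IsZF E) (w X τ : M) :
    (propLg E).fctb w X τ ↔ FirstCountable E w X τ := by
  simp only [Lg.fctb, prop_all, prop_imp, prop_and, prop_ex, prop_mem, isFun_prop E hE,
    app_prop E hE, sub_prop, and_imp]
  exact Iff.rfl

theorem sctb_prop (hE : IsZF E) (w τ : M) : (propLg E).sctb w τ ↔ SecondCountable E w τ := by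
  simp only [Lg.sctb, prop_all, prop_imp, prop_and, prop_ex, prop_mem, isFun_prop E hE,
    app_prop E hE, sub_prop, and_imp]
  exact Iff.rfl

theorem smet_prop (hE : IsZF E) (w X τ : M) (h : (propLg E).smet w X τ) :
    Submetrizable E w X τ := by
  simp only [Lg.smet, prop_ex, prop_and, sub_prop, reg_prop, sctb_prop E hE] at h
  obtain ⟨σ, h1, h2, h3, h4, h5⟩ := h
  exact ⟨σ, isTop_prop E X σ h1, h2, t2_prop E X σ h3, h4, h5⟩

theorem unc_prop (hE : IsZF E) (w X : M) : (propLg E).unc w X ↔ Uncountable E w X := by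
  simp only [Lg.unc, prop_all, prop_imp, prop_and, prop_ex, prop_mem, prop_neg,
    isFun_prop E hE, app_prop E hE]
  exact Iff.rfl

end conv

/-- the main theorem -/
theorem exists_ZFC_model : ∃ (M : Type) (E : M → M → Prop), IsZFC E ∧
    ∃ w R L X τ : M, IsOmega E w ∧ IsRealLine E w R L ∧ IsTopology E X τ ∧ Hausdorff E X τ ∧
      Regular E X τ ∧ SemiRegular E τ ∧ OpenWhyburn E X τ ∧ FirstCountable E w X τ ∧
      Submetrizable E w X τ ∧ Uncountable E w X ∧ QpFrechetUrysohn E w X τ R L := by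
  obtain ⟨M, E, t, hE, _, h⟩ := exists_model (P := Cond) tvF
    (fun _ => Classical.arbitrary _) ⊤
  have hZ := hE.isZF
  have hC := h .choice (fun s => by
    rw [eval_choice]
    exact forced_choice ⊤) t
  have hT := h .qs (fun s => by
    rw [eval_qs]
    exact gs.forced_qs ⊤) t
  rw [eval_choice] at hC
  rw [eval_qs] at hT
  refine ⟨M, E, ⟨hZ, ?_⟩, ?_⟩
  · simp only [Lg.choice, prop_all, prop_imp, prop_and, prop_ex, prop_mem, prop_eq] at hC
    intro F h1 h2
    obtain ⟨C, h3⟩ := hC F ⟨h1, fun x y t h => h2 x y t h.1.1 h.1.2 h.2.1 h.2.2⟩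
    refine ⟨C, fun x hx => ?_⟩
    obtain ⟨t, ht, ht'⟩ := h3 x hx
    exact ⟨t, ht, ht'⟩
  · simp only [Lg.qs, prop_ex, prop_and, isOm_prop E hZ, reg_prop, sreg_prop, owhy_prop,
      fctb_prop E hZ, unc_prop E hZ, qfu_prop E hZ] at hT
    obtain ⟨w, R, L, X, τ, h0, h1, h2, h3, h4, h5, h6, h7, h8, h9, h10⟩ := hT
    exact ⟨w, R, L, X, τ, h0, real_prop E hZ _ _ _ h1, isTop_prop E _ _ h2, t2_prop E _ _ h3,
      h4, h5, h6, h7, smet_prop E hZ _ _ _ h8, h9, h10⟩

end Pool.Agent.Lib.MP_c54930_gt
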