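import Pool.Agent.Lib.MP_c54930_gt.Fusion

/-!
# Fusion with bookkeeping
-/

set_option linter.unusedSectionVars false
set_option linter.unusedVariables false

namespace Pool.Agent.Lib.MP_c54930_gt

open Set

theorem bookkeeping {St T : Type} (valid : St → T → Prop) (Tk : St → ℕ → T)
    (hTk : ∀ s j, valid s (Tk s j)) (I : ℕ → St → Prop) (Do : ℕ → T → St → St → Prop)
    (step : ∀ n s τ, I n s → valid s τ → ∃ s', Do n τ s s' ∧ I (n + 1) s' ∧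
      ∀ τ', valid s τ' → valid s' τ') (s0 : St) (h0 : I 0 s0) :
    ∃ (seq : ℕ → St) (τ : ℕ → T), seq 0 = s0 ∧
      (∀ n, I n (seq n) ∧ Do n (τ n) (seq n) (seq (n + 1))) ∧
      ∀ i j, ∃ n ≥ i, τ n = Tk (seq i) j := by
  have step' : ∀ n s τ, ∃ s', I n s → valid s τ → Do n τ s s' ∧ I (n + 1) s' ∧
      ∀ τ', valid s τ' → valid s' τ' := by
    intro n s τ
    by_cases h : I n s ∧ valid s τ
    · obtain ⟨s', h'⟩ := step n s τ h.1 h.2
      exact ⟨s', fun _ _ => h'⟩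
    · exact ⟨s, fun h1 h2 => absurd ⟨h1, h2⟩ h⟩
  choose F hF using step'
  let hist : ℕ → ℕ → St := fun n => Nat.rec (fun _ => s0) (fun n h =>
    Function.update h (n + 1) (F n (h n) (Tk (h n.unpair.1) n.unpair.2))) n
  let seq : ℕ → St := fun n => hist n n
  have hsucc : ∀ n, hist (n + 1) = Function.update (hist n) (n + 1)
    (F n (hist n n) (Tk (hist n n.unpair.1) n.unpair.2)) := fun n => rfl
  have hag : ∀ n, ∀ i ≤ n, hist n i = seq i := by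
    intro n
    induction n with
    | zero =>
      intro i hi
      have : i = 0 := by omega
      subst this
      rfl
    | succ n ih =>
      intro i hi
      rcases Nat.lt_or_ge i (n + 1) with h | h
      · rw [hsucc, Function.update_of_ne (by omega)]
        exact ih i (by omega)
      · have : i = n + 1 := by omega
        subst this
        rfl
  let τ : ℕ → T := fun n => Tk (seq n.unpair.1) n.unpair.2
  have hseq : ∀ n, seq (n + 1) = F n (seq n) (τ n) := by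
    intro n
    change hist (n + 1) (n + 1) = _
    rw [hsucc, Function.update_self, hag n _ (Nat.unpair_left_le n)]
  have hinv : ∀ n, I n (seq n) ∧ ∀ i ≤ n, ∀ t, valid (seq i) t → valid (seq n) t := by
    intro n
    induction n with
    | zero =>
      refine ⟨h0, fun i hi t ht => ?_⟩
      have : i = 0 := by omega
      subst this
      exact ht
    | succ n ih =>
      have h1 := hF n (seq n) (τ n) ih.1 (ih.2 _ (Nat.unpair_left_le n) _ (hTk _ _))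
      rw [← hseq] at h1
      refine ⟨h1.2.1, fun i hi t ht => ?_⟩
      rcases Nat.lt_or_ge i (n + 1) with h | h
      · exact h1.2.2 t (ih.2 i (by omega) t ht)
      · have : i = n + 1 := by omega
        subst this
        exact ht
  refine ⟨seq, τ, rfl, fun n => ⟨(hinv n).1, ?_⟩, fun i j => ⟨Nat.pair i j,
    Nat.left_le_pair i j, ?_⟩⟩
  · have h1 := hF n (seq n) (τ n) (hinv n).1
      ((hinv n).2 _ (Nat.unpair_left_le n) _ (hTk _ _))
    rw [← hseq] at h1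
    exact h1.1
  · simp only [τ, Nat.unpair_pair]

namespace Cond

/-- states of the construction -/
structure St where
  /-- condition -/
  p : Cond
  /-- points -/
  F : List Cs
  /-- schemes -/
  L : ℕ → Set (Set Cs)
  /-- last list -/
  M : List (Set Cs)

/-- valid tasks -/
def valid (s : St) (τ : Set Cs ⊕ Cs) : Prop := Sum.elim (· ∈ s.p.K) (· ∈ s.p.X) τ

theorem exists_Tk (s : St) : ∃ e : ℕ → Set Cs ⊕ Cs, {τ | valid s τ} = range e := by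
  have hc : {τ | valid s τ}.Countable := by
    have : {τ | valid s τ} ⊆ (Sum.inl '' s.p.K) ∪ (Sum.inr '' s.p.X) := by
      rintro (k | x) h
      · exact Or.inl ⟨k, h, rfl⟩
      · exact Or.inr ⟨x, h, rfl⟩
    exact ((s.p.cK.image _).union (s.p.cX.image _)).mono this
  exact hc.exists_eq_range ⟨Sum.inl univ, s.p.top⟩

/-- invariant -/
def Inv (n : ℕ) (s : St) : Prop := (∀ x ∈ s.F, x ∈ s.p.X) ∧ ∀ i < n, (s.L i).Finite ∧
  (s.L i).Nonempty ∧ ∀ t ∈ s.L i, t ∈ s.p.K ∧ Disjoint t s.p.X ∧ ∀ x ∈ t, t ⊆ cyl x n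

/-- one step -/
def Do (Θ : ℕ → Cond → List Cs → List (Set Cs) → Prop) (n : ℕ) (τ : Set Cs ⊕ Cs)
    (s s' : St) : Prop :=
  s'.p ≤ s.p ∧ Θ n s'.p s.F s'.M ∧
  (∀ i < n, (∀ t ∈ s.L i, ∃ a ∈ s'.L i, ∃ b ∈ s'.L i, a ⊆ t ∧ b ⊆ t ∧ Disjoint a b) ∧
    ∀ a ∈ s'.L i, (∃ t ∈ s.L i, a ⊆ t) ∧ ∃ k ∈ s'.M, a ⊆ k) ∧
  (∀ x ∈ s.F, x ∈ s'.F) ∧
  (∀ k, τ = Sum.inl k → (∃ x ∈ s'.p.X, x ∈ k) ∧ ∀ t ∈ s'.L n, t ⊆ k) ∧
  ∀ x, τ = Sum.inr x → x ∈ s'.F

theorem exists_step (Θ : ℕ → Cond → List Cs → List (Set Cs) → Prop)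
    (hm : ∀ n p q F S, q ≤ p → Θ n p F S → Θ n q F S)
    (hd : ∀ n p (F : List Cs) (S : List (Set Cs)), (∀ x ∈ F, x ∈ p.X) → (∀ k ∈ S, k ∈ p.K) →
      ∃ q ≤ p, ∃ S' : List (Set Cs), (∀ k ∈ S, ∃ k' ∈ S', k' ∈ q.K ∧ k' ⊆ k) ∧ Θ n q F S')
    (n : ℕ) (s : St) (τ : Set Cs ⊕ Cs) (hI : Inv n s) (hv : valid s τ) :
    ∃ s', Do Θ n τ s s' ∧ Inv (n + 1) s' ∧ ∀ τ', valid s τ' → valid s' τ' := by
  classical
  have hfin : (⋃ i ∈ {i | i < n}, s.L i).Finite :=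
    (Set.finite_lt_nat n).biUnion fun i hi => (hI.2 i hi).1
  have hmem : ∀ t, t ∈ hfin.toFinset.toList ↔ ∃ i < n, t ∈ s.L i := by
    intro t
    rw [Finset.mem_toList, Set.Finite.mem_toFinset]
    simp
  obtain ⟨p1, hp1, M, hM, hΘ⟩ := hd n s.p s.F hfin.toFinset.toList hI.1 (fun k hk => by
    obtain ⟨i, hi, hk⟩ := (hmem k).1 hk
    exact ((hI.2 i hi).2.2 k hk).1)
  choose! ρ hρ1 hρ2 hρ3 using hM
  obtain ⟨k0, hk0, hk0'⟩ : ∃ k0 ∈ s.p.K, ∀ k, τ = Sum.inl k → k0 = k := by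
    rcases τ with k | x
    · exact ⟨k, hv, fun k' h => Sum.inl.inj h⟩
    · exact ⟨univ, s.p.top, fun k' h => by simp at h⟩
  obtain ⟨p2, hp2, x0, hx0, _, hx0k⟩ := p1.add (hp1.K hk0)
  obtain ⟨F', hF', hF'', hF'X⟩ : ∃ F' : List Cs, (∀ x ∈ s.F, x ∈ F') ∧
      (∀ x, τ = Sum.inr x → x ∈ F') ∧ ∀ x ∈ F', x ∈ s.p.X := by
    rcases τ with k | x
    · exact ⟨s.F, fun _ h => h, fun x h => by simp at h, hI.1⟩
    · refine ⟨x :: s.F, fun y hy => List.mem_cons_of_mem _ hy, fun y hy => ?_, fun y hy => ?_⟩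
      · rw [← Sum.inr.inj hy]
        exact List.mem_cons_self
      · rcases List.mem_cons.1 hy with rfl | hy
        · exact hv
        · exact hI.1 y hy
  have hL : ∀ i, ∃ S' : Set (Set Cs), i < n → S'.Finite ∧
      ((s.L i).Nonempty → S'.Nonempty) ∧
      (∀ t ∈ S', t ∈ p2.K ∧ Disjoint t p2.X ∧ ∀ x ∈ t, t ⊆ cyl x (n + 1)) ∧
      (∀ t ∈ s.L i, ∃ a ∈ S', ∃ b ∈ S', a ⊆ ρ t ∧ b ⊆ ρ t ∧ Disjoint a b) ∧
      ∀ a ∈ S', ∃ t ∈ s.L i, a ⊆ ρ t := by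
    intro i
    by_cases hi : i < n
    · obtain ⟨S', h⟩ := scheme_step p2 (s.L i) (hI.2 i hi).1 ρ
        (fun t ht => hp2.K (hρ2 t ((hmem t).2 ⟨i, hi, ht⟩))) (n + 1)
      exact ⟨S', fun _ => h⟩
    · exact ⟨∅, fun h => absurd h hi⟩
  choose L' hL' using hL
  obtain ⟨a0, ha0, _, _, ha0k, _, _, ha0X, _, ha0s, _⟩ := p2.split (hp2.K (hp1.K hk0)) (n + 1)
  refine ⟨⟨p2, F', fun i => if i < n then L' i else {a0}, M⟩, ⟨hp2.trans hp1,
    hm n p1 p2 _ _ hp2 hΘ, fun i hi => ?_, hF', fun k hk => ?_, hF''⟩, ⟨fun x hx =>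
      (hp2.trans hp1).X (hF'X x hx), fun i hi => ?_⟩, ?_⟩
  · simp only [if_pos hi]
    obtain ⟨h1, h2, h3, h4, h5⟩ := hL' i hi
    refine ⟨fun t ht => ?_, fun a ha => ?_⟩
    · obtain ⟨a, ha, b, hb, h6, h7, h8⟩ := h4 t ht
      have h9 := hρ3 t ((hmem t).2 ⟨i, hi, ht⟩)
      exact ⟨a, ha, b, hb, h6.trans h9, h7.trans h9, h8⟩
    · obtain ⟨t, ht, hat⟩ := h5 a ha
      have h9 := (hmem t).2 ⟨i, hi, ht⟩
      exact ⟨⟨t, ht, hat.trans (hρ3 t h9)⟩, ρ t, hρ1 t h9, hat⟩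
  · have := hk0' k hk
    subst this
    refine ⟨⟨x0, hx0, hx0k⟩, fun t ht => ?_⟩
    simp only [lt_irrefl, if_false, mem_singleton_iff] at ht
    subst ht
    exact ha0k
  · by_cases hin : i < n
    · simp only [if_pos hin]
      obtain ⟨h1, h2, h3, h4, h5⟩ := hL' i hin
      exact ⟨h1, h2 (hI.2 i hin).2.1, h3⟩
    · simp only [if_neg hin]
      exact ⟨finite_singleton _, singleton_nonempty _, by rintro t rfl; exact ⟨ha0, ha0X, ha0s⟩⟩
  · rintro (k | x) h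
    · exact (hp2.trans hp1).K h
    · exact (hp2.trans hp1).X h

theorem fus (Θ : ℕ → Cond → List Cs → List (Set Cs) → Prop)
    (hm : ∀ n p q F S, q ≤ p → Θ n p F S → Θ n q F S)
    (hd : ∀ n p (F : List Cs) (S : List (Set Cs)), (∀ x ∈ F, x ∈ p.X) → (∀ k ∈ S, k ∈ p.K) →
      ∃ q ≤ p, ∃ S' : List (Set Cs), (∀ k ∈ S, ∃ k' ∈ S', k' ∈ q.K ∧ k' ⊆ k) ∧ Θ n q F S')
    (p : Cond) : ∃ q ≤ p, ∃ (F : ℕ → List Cs) (S : ℕ → List (Set Cs)),
      (∀ n, Θ n q (F n) (S n)) ∧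
      ∀ r ≤ q, ∀ x ∈ r.X, ∃ N, ∀ n ≥ N, x ∈ F n ∨ ∃ k ∈ S n, x ∈ k := by
  choose Tk hTk using exists_Tk
  obtain ⟨s, τ, hs0, hs, hbk⟩ := bookkeeping valid Tk
    (fun s j => by
      have : Tk s j ∈ {τ | valid s τ} := by
        rw [hTk s]
        exact mem_range_self j
      exact this) Inv (Do Θ) (exists_step Θ hm hd) ⟨p, [], fun _ => ∅, []⟩
      ⟨by simp, fun i hi => by omega⟩
  have hbk' : ∀ i τ', valid (s i) τ' → ∃ n ≥ i, τ n = τ' := by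
    intro i τ' h
    have : τ' ∈ range (Tk (s i)) := by
      rw [← hTk (s i)]
      exact h
    obtain ⟨j, rfl⟩ := this
    exact hbk i j
  have hp : ∀ m n, m ≤ n → (s n).p ≤ (s m).p :=
    fun m n h => antitone_nat_of_succ_le (f := fun n => (s n).p) (fun n => (hs n).2.1) h
  -- the limits of the schemes
  have hT : ∀ i, ∃ T : Set Cs, (T.Nonempty ∧ IsClosed T ∧ Perf T ∧ ∀ n, (s n).p.Gd T) ∧
      ∀ n, T ⊆ ⋃₀ (s (i + 1 + n)).L i := by
    intro i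
    refine fusion_along (fun n => (s n).p) hp (i + 1) (fun n => (s (i + 1 + n)).L i)
      (fun n => ((hs _).1.2 i (by omega)).1) ((hs _).1.2 i (by omega)).2.1
      (fun n t ht => ?_) (fun n => ((hs (i + 1 + n)).2.2.2.1 i (by omega)).1)
      (fun n a ha => (((hs (i + 1 + n)).2.2.2.1 i (by omega)).2 a ha).1)
    obtain ⟨h1, h2, h3⟩ := ((hs (i + 1 + n)).1.2 i (by omega)).2.2 t ht
    exact ⟨h1, h2, fun x hx => (h3 x hx).trans (cyl_anti (by omega))⟩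
  choose T hT1 hT2 using hT
  obtain ⟨q, hq, hqX, hqK⟩ := limit (fun n => (s n).p) hp (range T) (countable_range T)
    (by rintro _ ⟨i, rfl⟩; exact hT1 i) (fun n k hk => by
      obtain ⟨m, hm, hmk⟩ := hbk' n (Sum.inl k) hk
      refine ⟨T m, mem_range_self m, (hT2 m 0).trans ?_⟩
      rintro x ⟨t, ht, hxt⟩
      exact ((hs m).2.2.2.2.2.1 k hmk).2 t ht hxt)
  have hqp : q ≤ p := by
    have := hq 0
    rw [hs0] at this
    exact this
  refine ⟨q, hqp, fun n => (s n).F, fun n => (s (n + 1)).M,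
    fun n => hm n _ q _ _ (hq (n + 1)) (hs n).2.2.1, fun r hr x hx => ?_⟩
  by_cases hxq : x ∈ q.X
  · obtain ⟨i, hi⟩ := hqX x hxq
    obtain ⟨m, _, hmx⟩ := hbk' i (Sum.inr x) hi
    refine ⟨m + 1, fun n hn => Or.inl ?_⟩
    induction n, hn using Nat.le_induction with
    | base => exact (hs m).2.2.2.2.2.2 x hmx
    | succ n hn ih => exact (hs n).2.2.2.2.1 x ih
  · obtain ⟨S, _, hS1, hS2⟩ := hr.pnew x hx hxq
    obtain ⟨t, ht, hxt⟩ := hS2 rfl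
    obtain ⟨htK, htX⟩ := hS1 t ht
    rcases hqK t htK with ⟨n, hn⟩ | ⟨_, ⟨i, rfl⟩, hti⟩
    · exfalso
      obtain ⟨m, _, hmt⟩ := hbk' n (Sum.inl t) hn
      obtain ⟨⟨y, hy, hyt⟩, _⟩ := (hs m).2.2.2.2.2.1 t hmt
      exact Set.disjoint_left.1 htX hyt ((hq (m + 1)).X hy)
    · refine ⟨i + 1, fun n hn => Or.inr ?_⟩
      obtain ⟨k, rfl⟩ := Nat.exists_eq_add_of_le hn
      obtain ⟨a, ha, hxa⟩ := hT2 i (k + 1) (hti hxt)
      obtain ⟨_, k', hk', hak⟩ := ((hs (i + 1 + k)).2.2.2.1 i (by omega)).2 a ha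
      exact ⟨k', hk', hak hxa⟩

end Cond

end Pool.Agent.Lib.MP_c54930_gt
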