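import Pool.Agent.Lib.MP_c54930_gt.Cond

/-!
# Fusion
-/

set_option linter.unusedSectionVars false
set_option linter.unusedVariables false

namespace Pool.Agent.Lib.MP_c54930_gt

open Set

theorem fusion (S : ℕ → Set (Set Cs)) (hfin : ∀ n, (S n).Finite) (h0 : (S 0).Nonempty)
    (hcl : ∀ n, ∀ s ∈ S n, IsClosed s) (hne : ∀ n, ∀ s ∈ S n, s.Nonempty)
    (hsm : ∀ n, ∀ s ∈ S n, ∀ x ∈ s, s ⊆ cyl x n)
    (hsp : ∀ n, ∀ s ∈ S n, ∃ a ∈ S (n + 1), ∃ b ∈ S (n + 1), a ⊆ s ∧ b ⊆ s ∧ Disjoint a b)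
    (hsub : ∀ n, ∀ a ∈ S (n + 1), ∃ s ∈ S n, a ⊆ s) :
    ∃ T : Set Cs, T.Nonempty ∧ IsClosed T ∧ Perf T ∧ ∀ n, T ⊆ ⋃₀ S n := by
  have hanti : Antitone fun n => ⋃₀ S n := by
    refine antitone_nat_of_succ_le fun n x hx => ?_
    obtain ⟨a, ha, hxa⟩ := hx
    obtain ⟨s, hs, has⟩ := hsub n a ha
    exact ⟨s, hs, has hxa⟩
  have hst : ∀ n, ∀ s : {s // s ∈ S n}, ∃ a : {s // s ∈ S (n + 1)}, a.1 ⊆ s.1 := by
    rintro n ⟨s, hs⟩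
    obtain ⟨a, ha, _, _, h, _⟩ := hsp n s hs
    exact ⟨⟨a, ha⟩, h⟩
  choose G hG using hst
  have key : ∀ n, ∀ s ∈ S n, ((⋂ n, ⋃₀ S n) ∩ s).Nonempty := by
    intro n s hs
    let c : ∀ k : ℕ, {s // s ∈ S (n + k)} := fun k =>
      Nat.rec (motive := fun k => {s // s ∈ S (n + k)}) ⟨s, hs⟩ (fun k a => G (n + k) a) k
    have hc : ∀ k, (c (k + 1)).1 ⊆ (c k).1 := fun k => hG (n + k) (c k)
    obtain ⟨x, hx⟩ := IsCompact.nonempty_iInter_of_sequence_nonempty_isCompact_isClosed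
      (fun k => (c k).1) hc (fun k => hne _ _ (c k).2) (hcl _ _ (c 0).2).isCompact
      (fun k => hcl _ _ (c k).2)
    rw [mem_iInter] at hx
    refine ⟨x, mem_iInter.2 fun m => ?_, hx 0⟩
    rcases le_total n m with h | h
    · obtain ⟨k, rfl⟩ := Nat.exists_eq_add_of_le h
      exact ⟨_, (c k).2, hx k⟩
    · exact hanti h ⟨_, hs, hx 0⟩
  refine ⟨⋂ n, ⋃₀ S n, ?_, ?_, ?_, fun n => iInter_subset _ n⟩
  · obtain ⟨s, hs⟩ := h0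
    exact (key 0 s hs).mono inter_subset_left
  · refine isClosed_iInter fun n => ?_
    rw [sUnion_eq_biUnion]
    exact (hfin n).isClosed_biUnion fun s hs => hcl n s hs
  · intro x hx n
    obtain ⟨s, hs, hxs⟩ := mem_iInter.1 hx n
    obtain ⟨a, ha, b, hb, h1, h2, h3⟩ := hsp n s hs
    obtain ⟨y, hy, hya⟩ := key _ a ha
    obtain ⟨z, hz, hzb⟩ := key _ b hb
    have hyz : y ≠ z := by
      rintro rfl
      exact Set.disjoint_left.1 h3 hya hzb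
    by_cases hxy : y = x
    · exact ⟨z, hz, hsm n s hs x hxs (h2 hzb), fun h => hyz (hxy.trans h.symm)⟩
    · exact ⟨y, hy, hsm n s hs x hxs (h1 hya), hxy⟩

namespace Cond

theorem fusion_along (p : ℕ → Cond) (hp : ∀ m n, m ≤ n → p n ≤ p m) (n0 : ℕ)
    (S : ℕ → Set (Set Cs)) (hfin : ∀ n, (S n).Finite) (h0 : (S 0).Nonempty)
    (hS : ∀ n, ∀ s ∈ S n, s ∈ (p (n0 + n)).K ∧ Disjoint s (p (n0 + n)).X ∧ ∀ x ∈ s, s ⊆ cyl x n)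
    (hsp : ∀ n, ∀ s ∈ S n, ∃ a ∈ S (n + 1), ∃ b ∈ S (n + 1), a ⊆ s ∧ b ⊆ s ∧ Disjoint a b)
    (hsub : ∀ n, ∀ a ∈ S (n + 1), ∃ s ∈ S n, a ⊆ s) :
    ∃ T : Set Cs, (T.Nonempty ∧ IsClosed T ∧ Perf T ∧ ∀ n, (p n).Gd T) ∧ ∀ n, T ⊆ ⋃₀ S n := by
  obtain ⟨T, h1, h2, h3, h4⟩ := fusion S hfin h0 (fun n s hs => (p _).clsd s (hS n s hs).1)
    (fun n s hs => (p _).ne s (hS n s hs).1) (fun n s hs => (hS n s hs).2.2) hsp hsub
  refine ⟨T, ⟨h1, h2, h3, fun n => ?_⟩, h4⟩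
  have key : ∀ n, (p (n0 + n)).Gd T := fun n =>
    ⟨S n, hfin n, fun t ht => ⟨(hS n t ht).1, (hS n t ht).2.1⟩, h4 n⟩
  rcases le_total n0 n with h | h
  · obtain ⟨k, rfl⟩ := Nat.exists_eq_add_of_le h
    exact key k
  · exact Gd.trans (hp n n0 h) (key 0)

theorem scheme_step (q : Cond) (S : Set (Set Cs)) (hfin : S.Finite) (ρ : Set Cs → Set Cs)
    (hρ : ∀ s ∈ S, ρ s ∈ q.K) (n : ℕ) : ∃ S' : Set (Set Cs), S'.Finite ∧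
      (S.Nonempty → S'.Nonempty) ∧
      (∀ s ∈ S', s ∈ q.K ∧ Disjoint s q.X ∧ ∀ x ∈ s, s ⊆ cyl x n) ∧
      (∀ s ∈ S, ∃ a ∈ S', ∃ b ∈ S', a ⊆ ρ s ∧ b ⊆ ρ s ∧ Disjoint a b) ∧
      ∀ a ∈ S', ∃ s ∈ S, a ⊆ ρ s := by
  have key := fun s (hs : s ∈ S) => q.split (hρ s hs) n
  choose! a ha b hb h1 h2 h3 h4 h5 h6 h7 using key
  refine ⟨⋃ s ∈ S, {a s, b s}, hfin.biUnion fun s _ => (finite_singleton _).insert _, ?_, ?_, ?_,
    ?_⟩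
  · rintro ⟨s, hs⟩
    refine ⟨a s, ?_⟩
    simp only [mem_iUnion]
    exact ⟨s, hs, Or.inl rfl⟩
  · intro t ht
    simp only [mem_iUnion] at ht
    obtain ⟨s, hs, rfl | h⟩ := ht
    · exact ⟨ha s hs, h4 s hs, h6 s hs⟩
    · rw [mem_singleton_iff] at h
      subst h
      exact ⟨hb s hs, h5 s hs, h7 s hs⟩
  · intro s hs
    refine ⟨a s, ?_, b s, ?_, h1 s hs, h2 s hs, h3 s hs⟩
    · simp only [mem_iUnion]
      exact ⟨s, hs, Or.inl rfl⟩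
    · simp only [mem_iUnion]
      exact ⟨s, hs, Or.inr rfl⟩
  · intro t ht
    simp only [mem_iUnion] at ht
    obtain ⟨s, hs, rfl | h⟩ := ht
    · exact ⟨s, hs, h1 s hs⟩
    · rw [mem_singleton_iff] at h
      subst h
      exact ⟨s, hs, h2 s hs⟩

theorem closed (c : ℕ → Cond) (hc : ∀ n, c (n + 1) ≤ c n) : ∃ d, ∀ n, d ≤ c n := by
  have hp : ∀ m n, m ≤ n → c n ≤ c m := fun m n h => antitone_nat_of_succ_le hc h
  have key : ∀ n, ∀ k ∈ (c n).K, ∃ T : Set Cs,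
      (T.Nonempty ∧ IsClosed T ∧ Perf T ∧ ∀ n, (c n).Gd T) ∧ T ⊆ k := by
    intro n0 k hk
    obtain ⟨a, ha, _, _, hak, _, _, haX, _, has, _⟩ := (c n0).split hk 0
    have hstep : ∀ n, ∀ S : {S : Set (Set Cs) // S.Finite ∧ S.Nonempty ∧ ∀ s ∈ S,
        s ∈ (c (n0 + n)).K ∧ Disjoint s (c (n0 + n)).X ∧ ∀ x ∈ s, s ⊆ cyl x n},
        ∃ S' : {S : Set (Set Cs) // S.Finite ∧ S.Nonempty ∧ ∀ s ∈ S,
          s ∈ (c (n0 + (n + 1))).K ∧ Disjoint s (c (n0 + (n + 1))).X ∧ ∀ x ∈ s, s ⊆ cyl x (n + 1)},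
        (∀ s ∈ S.1, ∃ a ∈ S'.1, ∃ b ∈ S'.1, a ⊆ s ∧ b ⊆ s ∧ Disjoint a b) ∧
          ∀ a ∈ S'.1, ∃ s ∈ S.1, a ⊆ s := by
      rintro n ⟨S, h1, h2, h3⟩
      obtain ⟨S', h4, h5, h6, h7, h8⟩ := scheme_step (c (n0 + (n + 1))) S h1 id
        (fun s hs => (hc (n0 + n)).K (h3 s hs).1) (n + 1)
      exact ⟨⟨S', h4, h5 h2, h6⟩, h7, h8⟩
    choose G hG using hstep
    let S : ∀ n : ℕ, {S : Set (Set Cs) // S.Finite ∧ S.Nonempty ∧ ∀ s ∈ S,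
        s ∈ (c (n0 + n)).K ∧ Disjoint s (c (n0 + n)).X ∧ ∀ x ∈ s, s ⊆ cyl x n} := fun n =>
      Nat.rec (motive := fun n => {S : Set (Set Cs) // S.Finite ∧ S.Nonempty ∧ ∀ s ∈ S,
        s ∈ (c (n0 + n)).K ∧ Disjoint s (c (n0 + n)).X ∧ ∀ x ∈ s, s ⊆ cyl x n})
        ⟨{a}, finite_singleton _, singleton_nonempty _, by rintro s rfl; exact ⟨ha, haX, has⟩⟩
        (fun n S => G n S) n
    obtain ⟨T, hT, hTS⟩ := fusion_along c hp n0 (fun n => (S n).1) (fun n => (S n).2.1)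
      (S 0).2.2.1 (fun n => (S n).2.2.2) (fun n => (hG n (S n)).1) (fun n => (hG n (S n)).2)
    refine ⟨T, hT, (hTS 0).trans ?_⟩
    rintro x ⟨s, hs, hxs⟩
    have hs' : s = a := hs
    subst hs'
    exact hak hxs
  choose! T hT hTk using key
  obtain ⟨q, hq, _⟩ := limit c hp (⋃ n, (fun k => T n k) '' (c n).K)
    (countable_iUnion fun n => (c n).cK.image _) (by
      intro t ht
      obtain ⟨n, hn⟩ := mem_iUnion.1 ht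
      obtain ⟨k, hk, rfl⟩ := hn
      exact hT n k hk) (fun n k hk => ⟨T n k, mem_iUnion.2 ⟨n, k, hk, rfl⟩, hTk n k hk⟩)
  exact ⟨q, hq⟩

end Cond

end Pool.Agent.Lib.MP_c54930_gt
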