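import Pool.Agent.Lib.MP_c54930_gt.Fus
import Pool.Agent.SymExt.Top.GSQ

/-!
# The generic refinement of the topology of the Cantor space
-/

set_option linter.unusedSectionVars false
set_option linter.unusedVariables false

namespace Pool.Agent.Lib.MP_c54930_gt

open Set Pool.Agent.SymExt

/-- an enumeration of the cylinders -/
noncomputable def Dn : ℕ → Set Cs :=
  (countable_Cyls.exists_eq_range ⟨cyl (fun _ => false) 0, _, _, rfl⟩).choose

theorem range_Dn : Cyls = range Dn :=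
  (countable_Cyls.exists_eq_range ⟨cyl (fun _ => false) 0, _, _, rfl⟩).choose_spec

theorem exists_Dn (x : Cs) (n : ℕ) : ∃ m, Dn m = cyl x n := by
  have : cyl x n ∈ range Dn := by
    rw [← range_Dn]
    exact ⟨x, n, rfl⟩
  exact this

theorem Dn_eq (m : ℕ) : ∃ x n, cyl x n = Dn m := by
  have : Dn m ∈ Cyls := by
    rw [range_Dn]
    exact mem_range_self m
  exact this

/-- the generic space -/
noncomputable def gs : GS Cs Cond (Set Cs) where
  closed := Cond.closed
  pt p x := x ∈ p.X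
  pt_mono h hx := h.X hx
  ok p k := k ∈ p.K
  ok_mono h hk := h.K hk
  mm x k := x ∈ k
  ok_top p z := ⟨univ, p.top, trivial⟩
  base {p x k k'} hx hk hk' h h' := p.base k hk k' hk' x hx h h'
  clos {p x k} hx hk h := by
    obtain ⟨n, hn⟩ := exists_cyl (p.clsd k hk).isOpen_compl h
    exact ⟨cyl x n, p.cyl_mem x n, self_cyl x n, fun y hy => hn hy⟩
  old {p q x k} h hx hk hxk := by
    by_contra hcon
    exact Set.disjoint_left.1 (h.new k hk hcon).disj hxk hx
  cntK p := p.cK
  D := Dn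
  D_ok p n := by
    obtain ⟨x, m, h⟩ := Dn_eq n
    rw [← h]
    exact p.cyl_mem x m
  D_top z := by
    obtain ⟨m, hm⟩ := exists_Dn z 0
    exact ⟨m, by rw [hm]; exact self_cyl z 0⟩
  D_base z m n hm hn := by
    obtain ⟨x, a, hx⟩ := Dn_eq m
    obtain ⟨y, b, hy⟩ := Dn_eq n
    obtain ⟨k, hk⟩ := exists_Dn z (max a b)
    rw [← hx] at hm ⊢
    rw [← hy] at hn ⊢
    refine ⟨k, by rw [hk]; exact self_cyl _ _, fun w hw => ?_⟩
    rw [hk] at hw
    rw [← cyl_eq hm, ← cyl_eq hn]
    exact ⟨cyl_anti (le_max_left _ _) hw, cyl_anti (le_max_right _ _) hw⟩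
  D_clos z n hn := by
    obtain ⟨x, a, hx⟩ := Dn_eq n
    obtain ⟨k, hk⟩ := exists_Dn z a
    rw [← hx] at hn ⊢
    refine ⟨k, by rw [hk]; exact self_cyl _ _, fun w hw hw' => hn ?_⟩
    rw [hk] at hw
    rw [← cyl_eq hw', cyl_eq hw]
    exact self_cyl _ _
  D_sep x y h := by
    obtain ⟨n, hn⟩ := exists_disj h
    obtain ⟨k, hk⟩ := exists_Dn x n
    refine ⟨k, by rw [hk]; exact self_cyl _ _, ?_⟩
    rw [hk]
    exact fun hy => Set.disjoint_left.1 (hn n le_rfl) hy (self_cyl _ _)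
  add p k hk := p.add hk
  fus := Cond.fus

end Pool.Agent.Lib.MP_c54930_gt
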